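import Pool.Agent.Y142.ZI.Stm
import Pool.Agent.Y708.ZO.Tan
import Pool.Agent.Y497.ZO.LogPow

set_option autoImplicit false

/-!
Project Y142-ZI (owner helper142), task `S_MULTI` (helper537).
-/

open Matrix Filter Topology
open Pool.Agent.Y142.ZO Pool.Agent.Y142.ZI
open Pool.Agent.Y497.ZO (Mt nmul none' Aj pow_eq norm_l_pow bound aj_zero exists_open inv_pow_le
  lR_pos l_inv_lt l_ne)
open Pool.Agent.Y708.ZO (dq)

namespace Pool.Agent.Y537.ZI

attribute [local instance] Matrix.normedAddCommGroup Matrix.normedSpace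

section norm

variable {ℓ : ℕ} [Fact ℓ.Prime] {N : ℕ}

local instance ultra : IsUltrametricDist (Mt ℓ N) :=
  inferInstanceAs (IsUltrametricDist (Fin N → Fin N → ℚ_[ℓ]))

lemma nadd {A B : Mt ℓ N} {ε : ℝ} (hA : ‖A‖ ≤ ε) (hB : ‖B‖ ≤ ε) : ‖A + B‖ ≤ ε :=
  (IsUltrametricDist.norm_add_le_max _ _).trans (max_le hA hB)

lemma nadd_lt {A B : Mt ℓ N} {ε : ℝ} (hA : ‖A‖ < ε) (hB : ‖B‖ < ε) : ‖A + B‖ < ε :=
  (IsUltrametricDist.norm_add_le_max _ _).trans_lt (max_lt hA hB)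

lemma nmul1 {A B : Mt ℓ N} {ε : ℝ} (hA : ‖A‖ ≤ 1) (hB : ‖B‖ ≤ ε) : ‖A * B‖ ≤ ε :=
  (nmul A B).trans ((mul_le_of_le_one_left (norm_nonneg _) hA).trans hB)

lemma nmul2 {A B : Mt ℓ N} {ε : ℝ} (hA : ‖A‖ ≤ ε) (hB : ‖B‖ ≤ 1) : ‖A * B‖ ≤ ε :=
  (nmul A B).trans ((mul_le_of_le_one_right (norm_nonneg _) hB).trans hA)

lemma n_le_one {A : Mt ℓ N} {ε : ℝ} (hε : ε ≤ 1) (h : ‖A - 1‖ ≤ ε) : ‖A‖ ≤ 1 := by
  have h1 : A = (A - 1) + 1 := by abel
  rw [h1]
  exact nadd (h.trans hε) none'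

lemma pow_near {A : Mt ℓ N} {ε : ℝ} (hε0 : 0 ≤ ε) (hε : ε ≤ 1) (h : ‖A - 1‖ ≤ ε) (b : ℕ) :
    ‖A ^ b - 1‖ ≤ ε := by
  induction b with
  | zero => rw [pow_zero, sub_self, norm_zero]; exact hε0
  | succ b ih =>
    have h1 : A ^ (b + 1) - 1 = (A ^ b - 1) * A + (A - 1) := by
      rw [pow_succ, sub_mul, one_mul]
      abel
    rw [h1]
    exact nadd (nmul2 ih (n_le_one hε h)) h

lemma pow_small {A : Mt ℓ N} (h : ‖A - 1‖ ≤ ((ℓ : ℝ) ^ 2)⁻¹) {K a : ℕ} (ha : ℓ ^ K ∣ a) :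
    ‖A ^ a - 1‖ ≤ ((ℓ : ℝ) ^ K)⁻¹ := by
  obtain ⟨b, rfl⟩ := ha
  rw [pow_mul]
  refine pow_near (inv_nonneg.2 (pow_nonneg lR_pos.le _)) (inv_pow_le K) ?_ b
  have h0 : ‖Aj A 0‖ ≤ 1 := aj_zero A (by rwa [mul_one])
  have h1 := bound A le_rfl h0 K
  rw [pow_eq, add_sub_cancel_left, norm_smul, norm_l_pow]
  calc ((ℓ : ℝ) ^ (K + 2))⁻¹ * ‖Aj A K‖ ≤ ((ℓ : ℝ) ^ (K + 2))⁻¹ * 1 :=
        mul_le_mul_of_nonneg_left h1 (inv_nonneg.2 (pow_nonneg lR_pos.le _))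
    _ = ((ℓ : ℝ) ^ (K + 2))⁻¹ := mul_one _
    _ ≤ ((ℓ : ℝ) ^ K)⁻¹ := by
      apply inv_anti₀ (pow_pos lR_pos K)
      exact pow_le_pow_right₀ (by exact_mod_cast (Fact.out : ℓ.Prime).one_lt.le) (by omega)

lemma pow_one_mod {A : Mt ℓ N} (h : ‖A - 1‖ ≤ ((ℓ : ℝ) ^ 2)⁻¹) {K a : ℕ} (ha : 1 ≤ a)
    (hd : ℓ ^ K ∣ a - 1) : ‖A ^ a - A‖ ≤ ((ℓ : ℝ) ^ K)⁻¹ := by
  have h1 : A ^ a - A = A * (A ^ (a - 1) - 1) := by
    rw [mul_sub, mul_one, ← pow_succ', Nat.sub_add_cancel ha]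
  rw [h1]
  exact nmul1 (n_le_one (inv_pow_le 2) h) (pow_small h hd)

lemma list_near {ι : Type} (A : ι → Mt ℓ N) {ε : ℝ} (hε0 : 0 ≤ ε) (hε : ε ≤ 1) (L : List ι)
    (h : ∀ i ∈ L, ‖A i - 1‖ ≤ ε) : ‖(L.map A).prod - 1‖ ≤ ε := by
  induction L with
  | nil => simpa using hε0
  | cons i L ih =>
    rw [List.map_cons, List.prod_cons]
    have h1 := ih fun k hk => h k (List.mem_cons_of_mem _ hk)
    have h2 : A i * (L.map A).prod - 1 = (A i - 1) * (L.map A).prod + ((L.map A).prod - 1) := by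
      rw [sub_mul, one_mul]
      abel
    rw [h2]
    exact nadd (nmul2 (h i List.mem_cons_self) (n_le_one hε h1)) h1

lemma list_near' {ι : Type} (A : ι → Mt ℓ N) {ε : ℝ} (hε0 : 0 ≤ ε) (hε : ε ≤ 1) (j : ι)
    (hj : ‖A j‖ ≤ 1) (L : List ι) (hL : L.Nodup) (hjL : j ∈ L)
    (h : ∀ i ∈ L, i ≠ j → ‖A i - 1‖ ≤ ε) : ‖(L.map A).prod - A j‖ ≤ ε := by
  induction L with
  | nil => simp at hjL
  | cons i L ih =>
    rw [List.map_cons, List.prod_cons]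
    rw [List.nodup_cons] at hL
    by_cases hij : i = j
    · subst hij
      have h1 := list_near A hε0 hε L fun k hk =>
        h k (List.mem_cons_of_mem _ hk) fun hk' => hL.1 (hk' ▸ hk)
      have h2 : A i * (L.map A).prod - A i = A i * ((L.map A).prod - 1) := by
        rw [mul_sub, mul_one]
      rw [h2]
      exact nmul1 hj h1
    · have hjL' : j ∈ L := by
        rcases List.mem_cons.1 hjL with h1 | h1
        · exact absurd h1.symm hij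
        · exact h1
      have h1 := ih hL.2 hjL' fun k hk => h k (List.mem_cons_of_mem _ hk)
      have h3 : ‖(L.map A).prod‖ ≤ 1 := by
        have h4 : (L.map A).prod = ((L.map A).prod - A j) + A j := by abel
        rw [h4]
        exact nadd (h1.trans hε) hj
      have h2 : A i * (L.map A).prod - A j = (A i - 1) * (L.map A).prod +
          ((L.map A).prod - A j) := by
        rw [sub_mul, one_mul]
        abel
      rw [h2]
      exact nadd (nmul2 (h i List.mem_cons_self hij) h3) h1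

lemma dq_pow {G : Type} [Group G] (ρ : G →* Mt ℓ N) {s : ℕ → G} {X : Mt ℓ N}
    (h : Tendsto (fun n => dq ρ n (s n)) atTop (𝓝 X)) (e : ℕ) :
    Tendsto (fun n => dq ρ n (s n ^ e)) atTop (𝓝 ((e : ℚ_[ℓ]) • X)) := by
  have h1 := Pool.Agent.Y708.ZO.rho_tendsto ρ h
  induction e with
  | zero =>
    have h2 : (fun n => dq ρ n (s n ^ 0)) = fun _ => 0 := by
      funext n
      simp [dq]
    rw [h2, Nat.cast_zero, zero_smul]
    exact tendsto_const_nhds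
  | succ e ih =>
    have h2 : (fun n => dq ρ n (s n ^ (e + 1))) = fun n => dq ρ n (s n ^ e) * ρ (s n) +
        dq ρ n (s n) := by
      funext n
      unfold dq
      rw [smul_mul_assoc, ← smul_add]
      congr 1
      rw [pow_succ, map_mul, sub_mul, one_mul]
      abel
    rw [h2]
    have h3 := (Tendsto.mul ih h1).add h
    rw [mul_one] at h3
    convert h3 using 2
    push_cast
    rw [add_smul, one_smul]

end norm

/-- approximation at several primes -/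
theorem t : S_MULTI := by
  intro G _ _ _ _ N I _ p _ hp ρ hρ T hT δ k₀ hδ
  classical
  -- the open subgroup
  have hU : ∀ i, ∃ U : Subgroup G, IsOpen (U : Set G) ∧
      ∀ σ ∈ U, ‖ρ i σ - 1‖ ≤ (((p i : ℕ) : ℝ) ^ 2)⁻¹ := fun i =>
    exists_open G (ρ i) (hρ i) _ (inv_pos.2 (pow_pos lR_pos 2)) (inv_pow_le 2)
  choose U hU1 hU2 using hU
  let V : Subgroup G := ⨅ i, U i
  have hV : IsOpen (V : Set G) := by
    rw [Subgroup.coe_iInf]
    exact isOpen_iInter_of_finite hU1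
  have hVU : ∀ i, ∀ σ ∈ V, σ ∈ U i := fun i σ hσ => (iInf_le U i) hσ
  obtain ⟨e, he, heV⟩ : ∃ e : ℕ, 0 < e ∧ ∀ σ : G, σ ^ e ∈ V := by
    have := Subgroup.quotient_finite_of_isOpen V hV
    have hne : V.index ≠ 0 := Subgroup.index_ne_zero_of_finite (H := V)
    refine ⟨V.index.factorial, Nat.factorial_pos _, fun σ => ?_⟩
    obtain ⟨n, hn, hn', h⟩ := Subgroup.exists_pow_mem_of_index_ne_zero hne σ
    obtain ⟨m, hm⟩ := Nat.dvd_factorial hn hn'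
    rw [hm, pow_mul]
    exact V.pow_mem h m
  -- the approximations
  have hn : ∀ i, ∃ (n : ℕ) (u : G), k₀ ≤ n ∧ u ∈ V ∧ ‖dq (ρ i) n u - T i‖ < δ := by
    intro i
    have he0 : (e : ℚ_[p i]) ≠ 0 := by exact_mod_cast he.ne'
    obtain ⟨s, hs⟩ := Pool.Agent.Y708.ZO.tangent_smul (ρ i) ((e : ℚ_[p i])⁻¹) (hT i)
    have h1 := dq_pow (ρ i) hs e
    rw [smul_smul, mul_inv_cancel₀ he0, one_smul] at h1
    have h2 : Tendsto (fun n => ‖dq (ρ i) n (s n ^ e) - T i‖) atTop (𝓝 0) :=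
      tendsto_iff_norm_sub_tendsto_zero.1 h1
    obtain ⟨n, hn1, hn2⟩ := ((h2.eventually (gt_mem_nhds hδ)).and (eventually_ge_atTop k₀)).exists
    exact ⟨n, s n ^ e, hn2, heV _, hn1⟩
  choose n u hn1 hn2 hn3 using hn
  -- the precision
  obtain ⟨K, hK1, hK⟩ : ∃ K : ℕ, 1 ≤ K ∧ ∀ i, ((p i : ℕ) : ℝ) ^ n i * (((p i : ℕ) : ℝ) ^ K)⁻¹ < δ := by
    have h1 : ∀ i, ∀ᶠ K : ℕ in atTop, ((p i : ℕ) : ℝ) ^ n i * (((p i : ℕ) : ℝ) ^ K)⁻¹ < δ := by
      intro i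
      have h2 : Tendsto (fun K : ℕ => ((p i : ℕ) : ℝ) ^ n i * (((p i : ℕ) : ℝ)⁻¹) ^ K) atTop
          (𝓝 (((p i : ℕ) : ℝ) ^ n i * 0)) :=
        (tendsto_pow_atTop_nhds_zero_of_lt_one (inv_nonneg.2 lR_pos.le) l_inv_lt).const_mul _
      rw [mul_zero] at h2
      refine (h2.eventually (gt_mem_nhds hδ)).mono fun K hK => ?_
      rwa [← inv_pow]
    obtain ⟨K, h2, h3⟩ := ((eventually_all.2 h1).and (eventually_ge_atTop 1)).exists
    exact ⟨K, h3, h2⟩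
  -- the exponents
  have ha : ∀ i, ∃ a : ℕ, 1 ≤ a ∧ p i ^ K ∣ a - 1 ∧ ∀ j, j ≠ i → p j ^ K ∣ a := by
    intro i
    have hc : Nat.Coprime (p i ^ K) (∏ j ∈ Finset.univ.erase i, p j ^ K) := by
      apply Nat.Coprime.prod_right
      intro j hj
      apply Nat.Coprime.pow
      rw [Nat.coprime_primes Fact.out Fact.out]
      exact fun h => (Finset.ne_of_mem_erase hj) (hp h).symm
    obtain ⟨a, ha1, ha2⟩ := Nat.chineseRemainder hc 1 0
    have ha0 : 1 ≤ a := by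
      rcases Nat.eq_zero_or_pos a with h | h
      · exfalso
        rw [h] at ha1
        have h2 : p i ^ K ∣ 1 := (Nat.modEq_zero_iff_dvd.1 ha1.symm)
        have h3 : 1 < p i ^ K := Nat.one_lt_pow (by omega) (Fact.out : (p i).Prime).one_lt
        have h4 := Nat.le_of_dvd one_pos h2
        omega
      · exact h
    refine ⟨a, ha0, (Nat.modEq_iff_dvd' ha0).1 ha1.symm, fun j hj => ?_⟩
    exact (Finset.dvd_prod_of_mem (fun j => p j ^ K)
      (Finset.mem_erase.2 ⟨hj, Finset.mem_univ j⟩)).trans (Nat.modEq_zero_iff_dvd.1 ha2)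
  choose a ha1 ha2 ha3 using ha
  let v : I → G := fun i => u i ^ a i
  let L : List I := Finset.univ.toList
  let σ₀ : G := (L.map v).prod
  have hA : ∀ i j, ‖ρ j (u i) - 1‖ ≤ (((p j : ℕ) : ℝ) ^ 2)⁻¹ := fun i j =>
    hU2 j _ (hVU j _ (hn2 i))
  have hσ : ∀ j, ‖ρ j σ₀ - ρ j (u j)‖ ≤ (((p j : ℕ) : ℝ) ^ K)⁻¹ := by
    intro j
    have h1 : ρ j σ₀ = (L.map fun i => ρ j (v i)).prod := by
      show ρ j ((L.map v).prod) = _
      rw [map_list_prod, List.map_map]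
      rfl
    have hvj : ‖ρ j (v j) - ρ j (u j)‖ ≤ (((p j : ℕ) : ℝ) ^ K)⁻¹ := by
      show ‖ρ j (u j ^ a j) - ρ j (u j)‖ ≤ _
      rw [map_pow]
      exact pow_one_mod (hA j j) (ha1 j) (ha2 j)
    have hvj1 : ‖ρ j (v j)‖ ≤ 1 := by
      have h2 : ρ j (v j) = (ρ j (v j) - ρ j (u j)) + ρ j (u j) := by abel
      rw [h2]
      exact nadd (hvj.trans (inv_pow_le K)) (n_le_one (inv_pow_le 2) (hA j j))
    have h2 := list_near' (fun i => ρ j (v i)) (inv_nonneg.2 (pow_nonneg lR_pos.le K))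
      (inv_pow_le K) j hvj1 L (Finset.nodup_toList _) (Finset.mem_toList.2 (Finset.mem_univ j))
      (fun i _ hij => by
        show ‖ρ j (u i ^ a i) - 1‖ ≤ _
        rw [map_pow]
        exact pow_small (hA i j) (ha3 i j hij.symm))
    have h3 : ρ j σ₀ - ρ j (u j) = (ρ j σ₀ - ρ j (v j)) + (ρ j (v j) - ρ j (u j)) := by abel
    rw [h3]
    refine nadd ?_ hvj
    rw [h1]
    exact h2
  refine ⟨{σ | ∀ i, ‖dq (ρ i) (n i) σ - T i‖ < δ}, ?_, ⟨σ₀, fun i => ?_⟩, fun σ hσ' i =>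
    ⟨n i, hn1 i, fun x y => ?_⟩⟩
  · have h1 : {σ | ∀ i, ‖dq (ρ i) (n i) σ - T i‖ < δ} =
        ⋂ i, {σ | ‖dq (ρ i) (n i) σ - T i‖ < δ} := by
      ext σ
      simp
    rw [h1]
    refine isOpen_iInter_of_finite fun i => ?_
    have h2 : Continuous fun σ => ‖dq (ρ i) (n i) σ - T i‖ := by
      have h3 : Continuous fun σ => dq (ρ i) (n i) σ - T i := by
        unfold dq
        exact (((hρ i).sub continuous_const).const_smul
          ((((p i : ℕ) : ℚ_[p i]) ^ n i)⁻¹)).sub continuous_const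
      exact continuous_norm.comp h3
    exact isOpen_lt h2 continuous_const
  · have h1 : dq (ρ i) (n i) σ₀ - T i =
        (((p i : ℕ) : ℚ_[p i]) ^ n i)⁻¹ • (ρ i σ₀ - ρ i (u i)) + (dq (ρ i) (n i) (u i) - T i) := by
      unfold dq
      rw [← add_sub_assoc, ← smul_add]
      congr 2
      abel
    rw [h1]
    refine nadd_lt ?_ (hn3 i)
    rw [norm_smul, norm_inv, norm_l_pow, inv_inv]
    exact (mul_le_mul_of_nonneg_left (hσ i) (pow_nonneg lR_pos.le _)).trans_lt (hK i)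
  · exact (Matrix.norm_entry_le_entrywise_sup_norm _).trans_lt (hσ' i)

end Pool.Agent.Y537.ZI
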